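import Mathlib

set_option autoImplicit false

namespace Pool.Agent.Results.MP_6c10c0_co.CompleteMinusEdge

open Finset

/-- `G` has the Ramsey repeated degree property: for all sufficiently large `n`, in every
red/blue colouring of the edges of `K_n` (red graph `R`, blue graph `Rᶜ`) there is a monochromatic
copy of `G` (an injective map `f` sending edges of `G` to edges of the colour) containing two
distinct vertices with the same red degree in the coloured `K_n`. -/
def RamseyRepeatedDegree {V : Type} (G : SimpleGraph V) : Prop :=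
  ∃ N : ℕ, ∀ n : ℕ, N ≤ n → ∀ R : SimpleGraph (Fin n),
    ∃ f : V → Fin n, Function.Injective f ∧
      ((∀ u v, G.Adj u v → R.Adj (f u) (f v)) ∨ (∀ u v, G.Adj u v → Rᶜ.Adj (f u) (f v))) ∧
      ∃ u v, u ≠ v ∧ (R.neighborSet (f u)).ncard = (R.neighborSet (f v)).ncard

/-! ### The colouring -/

/-- membership of position `i` in the `v`-th interval -/
def inB (h v i : ℕ) : Prop := (v < h ∧ 1 ≤ i ∧ i + v ≤ 2 * h - 1) ∨ (h ≤ v ∧ v < i)

instance (h v i : ℕ) : Decidable (inB h v i) := by unfold inB; infer_instance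

/-- red adjacency on the blocks; block types: 0 = P, 1 = Q, 2 = U, 3 = W -/
def adj (h : ℕ) : ℕ → ℕ → ℕ → ℕ → ℕ → ℕ → Prop
  | 0, b, i, 0, b', i' => b = b' ∧ i ≠ i' ∧ (i < h ↔ i' < h)
  | 0, b, i, 1, b', i' => 2 * i' + b' < 2 * i + b
  | 0, _, _, 2, _, _ => False
  | 0, b, i, 3, b', i' => b = b' ∧ inB h i' i
  | 1, b, i, 0, b', i' => 2 * i + b < 2 * i' + b'
  | 1, b, i, 1, b', i' => ¬ (b = b' ∧ (i < h ↔ i' < h))
  | 1, b, i, 2, b', i' => ¬ (b = b' ∧ inB h i' i)
  | 1, _, _, 3, _, _ => True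
  | 2, _, _, 0, _, _ => False
  | 2, b, i, 1, b', i' => ¬ (b = b' ∧ inB h i i')
  | 2, b, i, 2, b', i' => b = b' ∧ i ≠ i'
  | 2, b, _, 3, b', _ => b = b'
  | 3, b, i, 0, b', i' => b = b' ∧ inB h i i'
  | 3, _, _, 1, _, _ => True
  | 3, b, _, 2, b', _ => b = b'
  | 3, b, _, 3, b', _ => b ≠ b'
  | _, _, _, _, _, _ => False

/-- vertex type -/
abbrev Vx (h : ℕ) : Type := Fin 4 × Fin 2 × Fin (2 * h)

theorem adj_symm (h : ℕ) (t t' : Fin 4) (b i b' i' : ℕ) :
    adj h t b i t' b' i' → adj h t' b' i' t b i := by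
  fin_cases t <;> fin_cases t' <;> simp only [adj] <;> tauto

theorem adj_irrefl (h : ℕ) (t : Fin 4) (b i : ℕ) : ¬ adj h t b i t b i := by
  fin_cases t <;> simp [adj]

/-- the red graph -/
def redG (h : ℕ) : SimpleGraph (Vx h) where
  Adj x y := adj h x.1 x.2.1 x.2.2 y.1 y.2.1 y.2.2
  symm := ⟨fun _ _ hxy => adj_symm h _ _ _ _ _ _ hxy⟩
  loopless := ⟨fun _ hx => adj_irrefl h _ _ _ hx⟩

/-- counting function on `{0,…,n-1}` -/
noncomputable def cnt (n : ℕ) (p : ℕ → Prop) : ℕ := {i : ℕ | i < n ∧ p i}.ncard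

theorem cnt_eq_card {n : ℕ} {p : ℕ → Prop} (s : Finset ℕ) (hs : ∀ i, (i < n ∧ p i) ↔ i ∈ s) :
    cnt n p = s.card := by
  unfold cnt
  have : {i : ℕ | i < n ∧ p i} = (s : Set ℕ) := by
    ext i; simpa using hs i
  rw [this, Set.ncard_coe_finset]

open Classical in
theorem cnt_fin (n : ℕ) (p : ℕ → Prop) :
    (∑ i : Fin n, if p i then 1 else 0) = cnt n p := by
  rw [Fin.sum_univ_eq_sum_range (fun i => if p i then 1 else 0) n,
    cnt_eq_card ((Finset.range n).filter p) (by intro i; simp), Finset.card_filter]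

theorem cnt_congr {n : ℕ} {p q : ℕ → Prop} (hpq : ∀ i, i < n → (p i ↔ q i)) :
    cnt n p = cnt n q := by
  unfold cnt
  congr 1
  ext x
  simp only [Set.mem_ofPred_eq]
  constructor
  · rintro ⟨h1, h2⟩; exact ⟨h1, (hpq x h1).1 h2⟩
  · rintro ⟨h1, h2⟩; exact ⟨h1, (hpq x h1).2 h2⟩

theorem cnt_Ico {n a b : ℕ} {p : ℕ → Prop} (hb : b ≤ n)
    (hp : ∀ i, i < n → (p i ↔ (a ≤ i ∧ i < b))) : cnt n p = b - a := by
  rw [cnt_congr hp, cnt_eq_card (Finset.Ico a b) (by intro i; simp only [Finset.mem_Ico]; omega),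
    Nat.card_Ico]

theorem cnt_false {n : ℕ} {p : ℕ → Prop} (hp : ∀ i, i < n → ¬ p i) : cnt n p = 0 := by
  rw [cnt_Ico (a := 0) (b := 0) (by omega) (fun i hi => by simp [hp i hi])]

theorem cnt_true {n : ℕ} {p : ℕ → Prop} (hp : ∀ i, i < n → p i) : cnt n p = n := by
  rw [cnt_Ico (a := 0) (b := n) (by omega) (fun i hi => by simp [hp i hi, hi])]
  omega

open Classical in
theorem cnt_compl (n : ℕ) (p : ℕ → Prop) : cnt n (fun i => ¬ p i) + cnt n p = n := by
  rw [cnt_eq_card ((Finset.range n).filter (fun i => ¬ p i)) (by intro i; simp),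
    cnt_eq_card (p := p) ((Finset.range n).filter p) (by intro i; simp)]
  have := Finset.card_filter_add_card_filter_not (s := Finset.range n) p
  rw [Finset.card_range] at this
  omega

theorem cnt_Ico_ne {n a b c : ℕ} {p : ℕ → Prop} (hb : b ≤ n) (hc : a ≤ c ∧ c < b)
    (hp : ∀ i, i < n → (p i ↔ ((a ≤ i ∧ i < b) ∧ i ≠ c))) : cnt n p = b - a - 1 := by
  rw [cnt_congr hp, cnt_eq_card ((Finset.Ico a b).erase c) (by
    intro i; simp only [Finset.mem_Ico, Finset.mem_erase]; omega),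
    Finset.card_erase_of_mem (by simp; omega), Nat.card_Ico]

/-- coverage: number of `v` with `inB h v i` -/
theorem cnt_inB_left {h i : ℕ} (hi : i < 2 * h) :
    cnt (2 * h) (fun v => inB h v i) = if 1 ≤ i then h else 0 := by
  split_ifs with h1
  · by_cases h2 : i ≤ h
    · rw [cnt_Ico (a := 0) (b := h) (by omega)]
      · omega
      · intro v hv; unfold inB; omega
    · rw [cnt_eq_card (Finset.Ico 0 (2 * h - i) ∪ Finset.Ico h i) (by
        intro v
        simp only [Finset.mem_union, Finset.mem_Ico, inB]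
        omega), Finset.card_union_of_disjoint, Nat.card_Ico, Nat.card_Ico]
      · omega
      · rw [Finset.disjoint_left]
        intro v hv
        simp only [Finset.mem_Ico] at hv ⊢
        omega
  · apply cnt_false
    intro v hv; unfold inB; omega

theorem cnt_inB_right {h v : ℕ} (hv : v < 2 * h) :
    cnt (2 * h) (fun i => inB h v i) = 2 * h - 1 - v := by
  by_cases h1 : v < h
  · rw [cnt_Ico (a := 1) (b := 2 * h - v) (by omega)]
    · omega
    · intro i hi; unfold inB; omega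
  · rw [cnt_Ico (a := v + 1) (b := 2 * h) (by omega)]
    · omega
    · intro i hi; unfold inB; omega

open Classical in
theorem degree_eq (h : ℕ) (x : Vx h) :
    ((redG h).neighborSet x).ncard =
      ∑ t : Fin 4, ∑ b : Fin 2, cnt (2 * h) (fun i => adj h x.1 x.2.1 x.2.2 t b i) := by
  rw [Set.ncard_eq_toFinset_card']
  have : ((redG h).neighborSet x).toFinset = Finset.univ.filter (fun y => (redG h).Adj x y) := by
    ext y; simp
  rw [this, Finset.card_filter, Fintype.sum_prod_type]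
  apply Finset.sum_congr rfl
  intro t _
  rw [Fintype.sum_prod_type]
  apply Finset.sum_congr rfl
  intro b _
  rw [← cnt_fin]
  rfl


theorem cnt_own {h i : ℕ} (hi : i < 2 * h) :
    cnt (2 * h) (fun i' => i ≠ i' ∧ (i < h ↔ i' < h)) = h - 1 := by
  by_cases h1 : i < h
  · rw [cnt_Ico_ne (a := 0) (b := h) (c := i) (by omega) (by omega)]
    · omega
    · intro j hj; simp only [h1, true_iff]; omega
  · rw [cnt_Ico_ne (a := h) (b := 2 * h) (c := i) (by omega) (by omega)]
    · omega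
    · intro j hj; simp only [h1, false_iff]; omega

theorem cnt_cls {h i : ℕ} :
    cnt (2 * h) (fun i' => (i < h ↔ i' < h)) = h := by
  by_cases h1 : i < h
  · rw [cnt_Ico (a := 0) (b := h) (by omega)]
    · omega
    · intro j hj; simp only [h1, true_iff]; omega
  · rw [cnt_Ico (a := h) (b := 2 * h) (by omega)]
    · omega
    · intro j hj; simp only [h1, false_iff]; omega

theorem cnt_ne {n i : ℕ} (hi : i < n) : cnt n (fun i' => i ≠ i') = n - 1 := by
  rw [cnt_Ico_ne (a := 0) (b := n) (c := i) (by omega) (by omega)]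
  · omega
  · intro j hj; omega

theorem cnt_and {n : ℕ} {c : Prop} [Decidable c] {p : ℕ → Prop} :
    cnt n (fun i => c ∧ p i) = if c then cnt n p else 0 := by
  split_ifs with hc
  · exact cnt_congr (fun i _ => by simp [hc])
  · exact cnt_false (fun i _ => by simp [hc])

theorem cnt_not_and {n : ℕ} {c : Prop} [Decidable c] {p : ℕ → Prop} :
    cnt n (fun i => ¬ (c ∧ p i)) = if c then n - cnt n p else n := by
  have h1 := cnt_compl n (fun i => c ∧ p i)
  rw [cnt_and] at h1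
  split_ifs at h1 ⊢ <;> omega

section counts
variable {h i b b' : ℕ}

theorem c00 (hi : i < 2 * h) :
    cnt (2 * h) (fun i' => adj h 0 b i 0 b' i') = if b = b' then h - 1 else 0 := by
  show cnt (2 * h) (fun i' => b = b' ∧ i ≠ i' ∧ (i < h ↔ i' < h)) = _
  rw [cnt_and, cnt_own hi]

theorem c01 (hi : i < 2 * h) (hb : b ≤ 1) (hb' : b' ≤ 1) :
    cnt (2 * h) (fun i' => adj h 0 b i 1 b' i') = if b' < b then i + 1 else i := by
  show cnt (2 * h) (fun i' => 2 * i' + b' < 2 * i + b) = _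
  split_ifs with h1
  · rw [cnt_Ico (a := 0) (b := i + 1) (by omega) (by intro j hj; omega)]; omega
  · rw [cnt_Ico (a := 0) (b := i) (by omega) (by intro j hj; omega)]; omega

theorem c02 : cnt (2 * h) (fun i' => adj h 0 b i 2 b' i') = 0 :=
  cnt_false (fun _ _ hh => hh)

theorem c03 (hi : i < 2 * h) :
    cnt (2 * h) (fun i' => adj h 0 b i 3 b' i') = if b = b' then (if 1 ≤ i then h else 0) else 0 := by
  show cnt (2 * h) (fun i' => b = b' ∧ inB h i' i) = _
  rw [cnt_and, cnt_inB_left hi]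

theorem c10 (hi : i < 2 * h) (hb : b ≤ 1) (hb' : b' ≤ 1) :
    cnt (2 * h) (fun i' => adj h 1 b i 0 b' i') =
      if b < b' then 2 * h - i else 2 * h - 1 - i := by
  show cnt (2 * h) (fun i' => 2 * i + b < 2 * i' + b') = _
  split_ifs with h1
  · rw [cnt_Ico (a := i) (b := 2 * h) (by omega) (by intro j hj; omega)]
  · rw [cnt_Ico (a := i + 1) (b := 2 * h) (by omega) (by intro j hj; omega)]; omega

theorem c11 : cnt (2 * h) (fun i' => adj h 1 b i 1 b' i') = if b = b' then h else 2 * h := by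
  show cnt (2 * h) (fun i' => ¬ (b = b' ∧ (i < h ↔ i' < h))) = _
  rw [cnt_not_and, cnt_cls]
  split_ifs <;> omega

theorem c12 (hi : i < 2 * h) :
    cnt (2 * h) (fun i' => adj h 1 b i 2 b' i') =
      if b = b' then 2 * h - (if 1 ≤ i then h else 0) else 2 * h := by
  show cnt (2 * h) (fun i' => ¬ (b = b' ∧ inB h i' i)) = _
  rw [cnt_not_and, cnt_inB_left hi]

theorem c13 : cnt (2 * h) (fun i' => adj h 1 b i 3 b' i') = 2 * h :=
  cnt_true (fun _ _ => trivial)

theorem c20 : cnt (2 * h) (fun i' => adj h 2 b i 0 b' i') = 0 :=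
  cnt_false (fun _ _ hh => hh)

theorem c21 (hi : i < 2 * h) :
    cnt (2 * h) (fun i' => adj h 2 b i 1 b' i') =
      if b = b' then 2 * h - (2 * h - 1 - i) else 2 * h := by
  show cnt (2 * h) (fun i' => ¬ (b = b' ∧ inB h i i')) = _
  rw [cnt_not_and, cnt_inB_right hi]

theorem c22 (hi : i < 2 * h) :
    cnt (2 * h) (fun i' => adj h 2 b i 2 b' i') = if b = b' then 2 * h - 1 else 0 := by
  show cnt (2 * h) (fun i' => b = b' ∧ i ≠ i') = _
  rw [cnt_and, cnt_ne hi]

theorem c23 : cnt (2 * h) (fun i' => adj h 2 b i 3 b' i') = if b = b' then 2 * h else 0 := by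
  show cnt (2 * h) (fun _ => b = b') = _
  split_ifs with h1
  · exact cnt_true (fun _ _ => h1)
  · exact cnt_false (fun _ _ => h1)

theorem c30 (hi : i < 2 * h) :
    cnt (2 * h) (fun i' => adj h 3 b i 0 b' i') = if b = b' then 2 * h - 1 - i else 0 := by
  show cnt (2 * h) (fun i' => b = b' ∧ inB h i i') = _
  rw [cnt_and, cnt_inB_right hi]

theorem c31 : cnt (2 * h) (fun i' => adj h 3 b i 1 b' i') = 2 * h :=
  cnt_true (fun _ _ => trivial)

theorem c32 : cnt (2 * h) (fun i' => adj h 3 b i 2 b' i') = if b = b' then 2 * h else 0 := by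
  show cnt (2 * h) (fun _ => b = b') = _
  split_ifs with h1
  · exact cnt_true (fun _ _ => h1)
  · exact cnt_false (fun _ _ => h1)

theorem c33 : cnt (2 * h) (fun i' => adj h 3 b i 3 b' i') = if b = b' then 0 else 2 * h := by
  show cnt (2 * h) (fun _ => b ≠ b') = _
  split_ifs with h1
  · exact cnt_false (fun _ _ hh => hh h1)
  · exact cnt_true (fun _ _ => h1)

end counts

/-- the red degree of a vertex -/
noncomputable def deg (h t b i : ℕ) : ℕ :=
  ∑ t' : Fin 4, ∑ b' : Fin 2, cnt (2 * h) (fun i' => adj h t b i t' b' i')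

theorem deg_expand (h t b i : ℕ) : deg h t b i =
    (cnt (2 * h) (fun i' => adj h t b i 0 0 i') + cnt (2 * h) (fun i' => adj h t b i 0 1 i')) +
    (cnt (2 * h) (fun i' => adj h t b i 1 0 i') + cnt (2 * h) (fun i' => adj h t b i 1 1 i')) +
    (cnt (2 * h) (fun i' => adj h t b i 2 0 i') + cnt (2 * h) (fun i' => adj h t b i 2 1 i')) +
    (cnt (2 * h) (fun i' => adj h t b i 3 0 i') + cnt (2 * h) (fun i' => adj h t b i 3 1 i')) := by
  unfold deg
  rw [Fin.sum_univ_four]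
  simp only [Fin.sum_univ_two]
  rfl

theorem deg_P {h i b : ℕ} (hi : i < 2 * h) (hb : b ≤ 1) :
    deg h 0 b i = (h - 1) + (2 * i + b) + (if 1 ≤ i then h else 0) := by
  rw [deg_expand, c00 hi, c00 hi, c01 hi hb (by omega), c01 hi hb (by omega), c02, c02, c03 hi,
    c03 hi]
  obtain rfl | rfl : b = 0 ∨ b = 1 := by omega
  all_goals (simp; try omega)

theorem deg_Q {h i b : ℕ} (hi : i < 2 * h) (hb : b ≤ 1) :
    deg h 1 b i = 15 * h - 1 - (2 * i + b) - (if 1 ≤ i then h else 0) := by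
  rw [deg_expand, c10 hi hb (by omega), c10 hi hb (by omega), c11, c11, c12 hi, c12 hi, c13, c13]
  obtain rfl | rfl : b = 0 ∨ b = 1 := by omega
  all_goals (simp; split_ifs <;> omega)

theorem deg_U {h i b : ℕ} (hi : i < 2 * h) (hb : b ≤ 1) :
    deg h 2 b i = 6 * h + i := by
  rw [deg_expand, c20, c20, c21 hi, c21 hi, c22 hi, c22 hi, c23, c23]
  obtain rfl | rfl : b = 0 ∨ b = 1 := by omega
  all_goals (simp; omega)

theorem deg_W {h i b : ℕ} (hi : i < 2 * h) (hb : b ≤ 1) :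
    deg h 3 b i = 10 * h - 1 - i := by
  rw [deg_expand, c30 hi, c30 hi, c31, c31, c32, c32, c33, c33]
  obtain rfl | rfl : b = 0 ∨ b = 1 := by omega
  all_goals (simp; omega)

theorem same_deg_nat {h t t' b b' i i' : ℕ} (ht : t < 4) (ht' : t' < 4) (hb : b ≤ 1) (hb' : b' ≤ 1)
    (hi : i < 2 * h) (hi' : i' < 2 * h) (hne : ¬ (t = t' ∧ b = b' ∧ i = i'))
    (hd : deg h t b i = deg h t' b' i') :
    t = t' ∧ b ≠ b' ∧ i = i' ∧ (t = 2 ∨ t = 3) := by
  obtain rfl | rfl | rfl | rfl : t = 0 ∨ t = 1 ∨ t = 2 ∨ t = 3 := by omega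
  all_goals obtain rfl | rfl | rfl | rfl : t' = 0 ∨ t' = 1 ∨ t' = 2 ∨ t' = 3 := by omega
  all_goals
    simp only [deg_P hi hb, deg_Q hi hb, deg_U hi hb, deg_W hi hb, deg_P hi' hb', deg_Q hi' hb',
      deg_U hi' hb', deg_W hi' hb'] at hd
    try split_ifs at hd
    all_goals omega

/-- two different vertices of the same red degree are twins `U_0v, U_1v` or `W_0v, W_1v` -/
theorem same_deg {h : ℕ} {x y : Vx h} (hne : x ≠ y)
    (hd : ((redG h).neighborSet x).ncard = ((redG h).neighborSet y).ncard) :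
    x.1 = y.1 ∧ x.2.1 ≠ y.2.1 ∧ x.2.2 = y.2.2 ∧ (x.1 = 2 ∨ x.1 = 3) := by
  obtain ⟨t, b, i⟩ := x
  obtain ⟨t', b', i'⟩ := y
  rw [degree_eq, degree_eq] at hd
  have := same_deg_nat (h := h) (t := t) (t' := t') (b := b) (b' := b') (i := i) (i' := i')
    t.2 t'.2 (by omega) (by omega) i.2 i'.2
    (by rintro ⟨h1, h2, h3⟩; exact hne (by rw [Fin.ext h1, Fin.ext h2, Fin.ext h3])) hd
  obtain ⟨h1, h2, h3, h4⟩ := this
  refine ⟨Fin.ext h1, fun h5 => h2 (by rw [show b = b' from h5]), Fin.ext h3, ?_⟩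
  rcases h4 with h4 | h4
  · left; exact Fin.ext h4
  · right; exact Fin.ext h4

/-- the common red neighbours of twins lie in `Q` -/
theorem common_red {h : ℕ} {x y z : Vx h} (h1 : x.1 = y.1) (h2 : x.2.1 ≠ y.2.1)
    (h4 : x.1 = 2 ∨ x.1 = 3) (hx : (redG h).Adj x z) (hy : (redG h).Adj y z) : z.1 = 1 := by
  obtain ⟨t, b, i⟩ := x
  obtain ⟨t', b', i'⟩ := y
  obtain ⟨s, c, j⟩ := z
  simp only at h1 h2 h4
  subst h1
  have h2' : (b : ℕ) ≠ b' := fun h5 => h2 (Fin.ext h5)
  have hc := c.2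
  have hb := b.2
  have hb' := b'.2
  change adj h t b i s c j at hx
  change adj h t b' i' s c j at hy
  show s = 1
  rcases h4 with rfl | rfl <;> fin_cases s <;> simp [adj] at hx hy ⊢ <;> omega

/-- the common blue neighbours of twins lie in `P` -/
theorem common_blue {h : ℕ} {x y z : Vx h} (h1 : x.1 = y.1) (h2 : x.2.1 ≠ y.2.1)
    (h4 : x.1 = 2 ∨ x.1 = 3) (hx : ¬ (redG h).Adj x z) (hy : ¬ (redG h).Adj y z)
    (hxz : x ≠ z) (hyz : y ≠ z) : z.1 = 0 := by
  obtain ⟨t, b, i⟩ := x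
  obtain ⟨t', b', i'⟩ := y
  obtain ⟨s, c, j⟩ := z
  simp only at h1 h2 h4
  subst h1
  have h2' : (b : ℕ) ≠ b' := fun h5 => h2 (Fin.ext h5)
  have hxz' : ¬ ((t : ℕ) = s ∧ (b : ℕ) = c ∧ (i : ℕ) = j) := by
    rintro ⟨h6, h7, h8⟩; exact hxz (by rw [Fin.ext h6, Fin.ext h7, Fin.ext h8])
  have hyz' : ¬ ((t : ℕ) = s ∧ (b' : ℕ) = c ∧ (i' : ℕ) = j) := by
    rintro ⟨h6, h7, h8⟩; exact hyz (by rw [Fin.ext h6, Fin.ext h7, Fin.ext h8])
  have hc := c.2
  have hb := b.2
  have hb' := b'.2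
  change ¬ adj h t b i s c j at hx
  change ¬ adj h t b' i' s c j at hy
  show s = 0
  clear hxz hyz h2
  rcases h4 with rfl | rfl <;> fin_cases s
  · rfl
  · exfalso
    change ¬ ¬ ((b : ℕ) = c ∧ _) at hx
    change ¬ ¬ ((b' : ℕ) = c ∧ _) at hy
    omega
  · exfalso
    change ¬ ((b : ℕ) = c ∧ (i : ℕ) ≠ j) at hx
    change ¬ ((b' : ℕ) = c ∧ (i' : ℕ) ≠ j) at hy
    change ¬ ((2 : ℕ) = 2 ∧ (b : ℕ) = c ∧ (i : ℕ) = j) at hxz'
    change ¬ ((2 : ℕ) = 2 ∧ (b' : ℕ) = c ∧ (i' : ℕ) = j) at hyz'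
    omega
  · exfalso
    change ¬ ((b : ℕ) = c) at hx
    change ¬ ((b' : ℕ) = c) at hy
    omega
  · rfl
  · exfalso; exact hx trivial
  · exfalso
    change ¬ ((b : ℕ) = c) at hx
    change ¬ ((b' : ℕ) = c) at hy
    omega
  · exfalso
    change ¬ ((b : ℕ) ≠ c) at hx
    change ¬ ((b' : ℕ) ≠ c) at hy
    omega

/-- class of a shell vertex -/
def cls (h : ℕ) (x : Vx h) : Fin 2 × Bool := (x.2.1, decide ((x.2.2 : ℕ) < h))

theorem cls_red {h : ℕ} {x y : Vx h} (hx : x.1 = 1) (hy : y.1 = 1) (hxy : (redG h).Adj x y) :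
    cls h x ≠ cls h y := by
  obtain ⟨t, b, i⟩ := x
  obtain ⟨t', b', i'⟩ := y
  simp only at hx hy
  subst hx hy
  change ¬ ((b : ℕ) = b' ∧ ((i : ℕ) < h ↔ (i' : ℕ) < h)) at hxy
  intro hc
  unfold cls at hc
  rw [Prod.mk.injEq] at hc
  obtain ⟨h1, h2⟩ := hc
  apply hxy
  refine ⟨congrArg Fin.val h1, ?_⟩
  exact decide_eq_decide.1 h2

theorem cls_blue {h : ℕ} {x y : Vx h} (hx : x.1 = 0) (hy : y.1 = 0) (hxy : ¬ (redG h).Adj x y)
    (hne : x ≠ y) : cls h x ≠ cls h y := by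
  obtain ⟨t, b, i⟩ := x
  obtain ⟨t', b', i'⟩ := y
  simp only at hx hy
  subst hx hy
  change ¬ ((b : ℕ) = b' ∧ (i : ℕ) ≠ i' ∧ ((i : ℕ) < h ↔ (i' : ℕ) < h)) at hxy
  intro hc
  unfold cls at hc
  rw [Prod.mk.injEq] at hc
  obtain ⟨h1, h2⟩ := hc
  have h1' : (b : ℕ) = b' := congrArg Fin.val h1
  have h2' := decide_eq_decide.1 h2
  apply hxy
  refine ⟨h1', ?_, h2'⟩
  intro h3
  apply hne
  have h1 : b = b' := h1
  rw [h1, Fin.ext h3]

/-- the key property of the colouring, for an arbitrary vertex type and an arbitrary copy -/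
theorem no_copy {h k : ℕ} (hk : 8 ≤ k) {G : SimpleGraph (Fin k)} {a b : Fin k}
    (hG : ∀ u v, G.Adj u v ↔ u ≠ v ∧ s(u, v) ≠ s(a, b)) (f : Fin k → Vx h)
    (hf : Function.Injective f)
    (hcol : (∀ u v, G.Adj u v → (redG h).Adj (f u) (f v)) ∨
      (∀ u v, G.Adj u v → (redG h)ᶜ.Adj (f u) (f v))) {u v : Fin k} (huv : u ≠ v)
    (hd : ((redG h).neighborSet (f u)).ncard = ((redG h).neighborSet (f v)).ncard) : False := by
  classical
  obtain ⟨h1, h2, _, h4⟩ := same_deg (hf.ne huv) hd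
  have hG' : ∀ u v, G.Adj u v ↔ u ≠ v ∧ ¬ ((u = a ∧ v = b) ∨ (u = b ∧ v = a)) := by
    intro u v; rw [hG, Ne, Ne, Sym2.eq_iff]
  -- the vertex to be discarded
  obtain ⟨x, hx1, hx2⟩ : ∃ x : Fin k,
      (∀ c, c ≠ u → c ≠ v → c ≠ x → G.Adj u c ∧ G.Adj v c) ∧
      (∀ c d, c ≠ u → c ≠ v → c ≠ x → d ≠ u → d ≠ v → d ≠ x → c ≠ d → G.Adj c d) := by
    by_cases ha : a = u ∨ a = v
    · refine ⟨b, ?_, ?_⟩
      · intro c hcu hcv hcb
        rw [hG', hG']
        refine ⟨⟨hcu.symm, ?_⟩, ⟨hcv.symm, ?_⟩⟩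
        · rintro (⟨h5, h6⟩ | ⟨h5, h6⟩)
          · exact hcb h6
          · rcases ha with ha | ha
            · exact hcu (h6.trans ha)
            · exact hcv (h6.trans ha)
        · rintro (⟨h5, h6⟩ | ⟨h5, h6⟩)
          · exact hcb h6
          · rcases ha with ha | ha
            · exact hcu (h6.trans ha)
            · exact hcv (h6.trans ha)
      · intro c d hcu hcv hcb hdu hdv hdb hcd
        rw [hG']
        refine ⟨hcd, ?_⟩
        rintro (⟨h5, h6⟩ | ⟨h5, h6⟩)
        · exact hdb h6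
        · exact hcb h5
    · have ha1 : a ≠ u := fun h5 => ha (Or.inl h5)
      have ha2 : a ≠ v := fun h5 => ha (Or.inr h5)
      refine ⟨a, ?_, ?_⟩
      · intro c hcu hcv hca
        rw [hG', hG']
        refine ⟨⟨hcu.symm, ?_⟩, ⟨hcv.symm, ?_⟩⟩
        · rintro (⟨h5, h6⟩ | ⟨h5, h6⟩)
          · exact ha1 h5.symm
          · exact hca h6
        · rintro (⟨h5, h6⟩ | ⟨h5, h6⟩)
          · exact ha2 h5.symm
          · exact hca h6
      · intro c d hcu hcv hca hdu hdv hda hcd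
        rw [hG']
        refine ⟨hcd, ?_⟩
        rintro (⟨h5, h6⟩ | ⟨h5, h6⟩)
        · exact hca h5
        · exact hda h6
  -- the remaining vertices
  let S : Finset (Fin k) := ((Finset.univ.erase u).erase v).erase x
  have hS : ∀ c, c ∈ S ↔ c ≠ x ∧ c ≠ v ∧ c ≠ u := by
    intro c; simp [S]
  have hScard : 5 ≤ S.card := by
    have e1 : (Finset.univ : Finset (Fin k)).card = k := by simp
    have e2 := Finset.pred_card_le_card_erase (s := (Finset.univ : Finset (Fin k))) (a := u)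
    have e3 := Finset.pred_card_le_card_erase (s := (Finset.univ : Finset (Fin k)).erase u) (a := v)
    have e4 := Finset.pred_card_le_card_erase
      (s := ((Finset.univ : Finset (Fin k)).erase u).erase v) (a := x)
    show 5 ≤ (((Finset.univ.erase u).erase v).erase x).card
    omega
  have hinj : ∀ c ∈ S, ∀ d ∈ S, cls h (f c) = cls h (f d) → c = d := by
    intro c hc d hd' hcd
    by_contra hne
    obtain ⟨c1, c2, c3⟩ := (hS c).1 hc
    obtain ⟨d1, d2, d3⟩ := (hS d).1 hd'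
    have hcd' := hx2 c d c3 c2 c1 d3 d2 d1 hne
    obtain ⟨hcu, hcv⟩ := hx1 c c3 c2 c1
    obtain ⟨hdu, hdv⟩ := hx1 d d3 d2 d1
    rcases hcol with hr | hb
    · exact cls_red (common_red h1 h2 h4 (hr _ _ hcu) (hr _ _ hcv))
        (common_red h1 h2 h4 (hr _ _ hdu) (hr _ _ hdv)) (hr _ _ hcd') hcd
    · have g1 := SimpleGraph.compl_adj _ _ _ |>.1 (hb _ _ hcu)
      have g2 := SimpleGraph.compl_adj _ _ _ |>.1 (hb _ _ hcv)
      have g3 := SimpleGraph.compl_adj _ _ _ |>.1 (hb _ _ hdu)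
      have g4 := SimpleGraph.compl_adj _ _ _ |>.1 (hb _ _ hdv)
      have g5 := SimpleGraph.compl_adj _ _ _ |>.1 (hb _ _ hcd')
      exact cls_blue (common_blue h1 h2 h4 g1.2 g2.2 g1.1 g2.1)
        (common_blue h1 h2 h4 g3.2 g4.2 g3.1 g4.1) g5.2 g5.1 hcd
  have hcard : S.card ≤ (Finset.univ : Finset (Fin 2 × Bool)).card :=
    Finset.card_le_card_of_injOn (fun c => cls h (f c)) (fun _ _ => Finset.mem_coe.2 (Finset.mem_univ _))
      (fun c hc d hd' hcd => hinj c hc d hd' hcd)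
  have : (Finset.univ : Finset (Fin 2 × Bool)).card = 4 := by simp
  omega

/-- **Main theorem.** For every `k ≥ 8` the graph `K_k` minus one edge is not a complete graph and
does not have the Ramsey repeated degree property. -/
theorem result (k : ℕ) (hk : 8 ≤ k) :
    ∃ G : SimpleGraph (Fin k),
      (∃ a b : Fin k, a ≠ b ∧ ∀ u v, G.Adj u v ↔ u ≠ v ∧ s(u, v) ≠ s(a, b)) ∧
      (∀ m : ℕ, IsEmpty (G ≃g (⊤ : SimpleGraph (Fin m)))) ∧
      ¬ RamseyRepeatedDegree G := by
  have ha0 : 0 < k := by omega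
  have hb0 : 1 < k := by omega
  let a : Fin k := ⟨0, ha0⟩
  let b : Fin k := ⟨1, hb0⟩
  have hab : a ≠ b := by
    intro h0; have := congrArg Fin.val h0; simp [a, b] at this
  let G : SimpleGraph (Fin k) :=
    { Adj := fun u v => u ≠ v ∧ s(u, v) ≠ s(a, b)
      symm := ⟨fun u v huv => ⟨huv.1.symm, by rw [Sym2.eq_swap]; exact huv.2⟩⟩
      loopless := ⟨fun u hu => hu.1 rfl⟩ }
  refine ⟨G, ⟨a, b, hab, fun u v => Iff.rfl⟩, ?_, ?_⟩
  · intro m
    constructor
    intro e
    have h1 : (⊤ : SimpleGraph (Fin m)).Adj (e a) (e b) := by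
      rw [SimpleGraph.top_adj]; exact e.injective.ne hab
    have h2 : G.Adj a b := e.map_adj_iff.1 h1
    exact h2.2 rfl
  · rintro ⟨N, hN⟩
    let h : ℕ := N
    have hcardV : Fintype.card (Vx h) = 16 * h := by
      simp only [Vx, Fintype.card_prod, Fintype.card_fin]; ring
    let e : Vx h ≃ Fin (16 * h) := Fintype.equivFinOfCardEq hcardV
    let R : SimpleGraph (Fin (16 * h)) := (redG h).comap e.symm
    obtain ⟨f, hf, hcol, u, v, huv, hd⟩ := hN (16 * h) (by show N ≤ 16 * N; omega) R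
    have hdeg : ∀ x : Fin (16 * h), (R.neighborSet x).ncard =
        ((redG h).neighborSet (e.symm x)).ncard := by
      intro x
      have : (redG h).neighborSet (e.symm x) = e.symm '' (R.neighborSet x) := by
        ext y
        constructor
        · intro hy
          exact ⟨e y, by simpa [R, SimpleGraph.mem_neighborSet] using hy, by simp⟩
        · rintro ⟨z, hz, rfl⟩
          simpa [R, SimpleGraph.mem_neighborSet] using hz
      rw [this, Set.ncard_image_of_injective _ e.symm.injective]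
    refine no_copy (h := h) hk (G := G) (a := a) (b := b) (fun u v => Iff.rfl)
      (fun c => e.symm (f c)) (e.symm.injective.comp hf) ?_ huv ?_
    · rcases hcol with hr | hb
      · left
        intro c d hcd
        exact hr c d hcd
      · right
        intro c d hcd
        have := hb c d hcd
        rw [SimpleGraph.compl_adj] at this ⊢
        exact ⟨e.symm.injective.ne this.1, this.2⟩
    · rw [← hdeg, ← hdeg]; exact hd

end Pool.Agent.Results.MP_6c10c0_co.CompleteMinusEdge
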